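import Pool.Agent.Lib.MP_c7af3c_ag.FANO.Iface
import Pool.Agent.Lib.MP_c7af3c_ag.SHARP.H26.Glob

/-!
# MP_c7af3c_ag, project FANO: the height inequality for planes (module HBFR) (helper32)
-/

set_option autoImplicit false

namespace Pool.Agent.Fano.H32

open MvPolynomial WithZero Pool.Agent.Gen Pool.Agent.Sharp

section heights

variable {L : Type} [Field L] (S : PlaceSys L) {n r : ℕ} (x : Fin r → Fin (n + 1) → L)

theorem le_mxF (p : S.V) (J : Fin r → Fin (n + 1)) : S.v p (pl x J) ≤ mxF S x p :=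
  Finset.le_sup' (fun J : Fin r → Fin (n + 1) => S.v p (pl x J)) (Finset.mem_univ J)

theorem exists_mxF (p : S.V) : ∃ J, S.v p (pl x J) = mxF S x p := by
  obtain ⟨J, -, hJ⟩ := Finset.exists_mem_eq_sup'
    (s := (Finset.univ : Finset (Fin r → Fin (n + 1)))) ⟨fun _ => 0, Finset.mem_univ _⟩
    (fun J => S.v p (pl x J))
  exact ⟨J, hJ.symm⟩

theorem mxF_ne_zero {J : Fin r → Fin (n + 1)} (h : pl x J ≠ 0) (p : S.V) : mxF S x p ≠ 0 := by
  intro h0
  have := le_mxF S x p J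
  rw [h0, le_zero_iff, map_eq_zero] at this
  exact h this

theorem finite_mxF (hS : ∀ f : L, f ≠ 0 → {p | S.v p f ≠ 1}.Finite) {J : Fin r → Fin (n + 1)}
    (h : pl x J ≠ 0) : {p | mxF S x p ≠ 1}.Finite := by
  have hf : (⋃ J' ∈ {J' : Fin r → Fin (n + 1) | pl x J' ≠ 0},
      {p | S.v p (pl x J') ≠ 1}).Finite :=
    Set.Finite.biUnion (Set.toFinite _) fun J' hJ' => hS _ hJ'
  refine hf.subset fun p hp => ?_
  by_contra hc
  simp only [Set.mem_ofPred_eq, ne_eq, Set.mem_iUnion, exists_prop, not_exists, not_and,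
    not_not] at hc hp
  apply hp
  obtain ⟨J', hJ'⟩ := exists_mxF S x p
  have h0 : pl x J' ≠ 0 := fun h' => mxF_ne_zero S x h p (by rw [← hJ', h', map_zero])
  rw [← hJ']
  exact hc J' h0

/-- the sum over the places -/
theorem glob (hS : S.IsProd) {J0 : Fin r → Fin (n + 1)} (hp : pl x J0 ≠ 0) (B : S.V → ℕ)
    (hB : {p | B p ≠ 0}.Finite) (μ : L) (hμ : μ ≠ 0) (t A b : ℕ)
    (h : ∀ p, S.v p μ * mxF S x p ^ t ≤
      exp (B p : ℤ) ^ A * mxF S x p ^ b * S.v p (pl x J0) ^ t) :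
    (t : ℤ) * hF S x ≤ A * tot S B + b * hF S x ∧ 0 ≤ hF S x := by
  classical
  have hf2 := finite_mxF S x hS.fin hp
  have hf3 := hS.fin _ hμ
  have hf4 := hS.fin _ hp
  set T : Finset S.V := hf2.toFinset ∪ hf3.toFinset ∪ hf4.toFinset ∪ hB.toFinset with hT
  have hmem : ∀ p, p ∉ T → mxF S x p = 1 ∧ S.v p μ = 1 ∧ S.v p (pl x J0) = 1 ∧
      B p = 0 := by
    intro p hp
    rw [hT] at hp
    simp only [Finset.mem_union, Set.Finite.mem_toFinset, Set.mem_ofPred_eq, not_or, not_not] at hp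
    exact ⟨hp.1.1.1, hp.1.1.2, hp.1.2, hp.2⟩
  have key : ∀ f : S.V → ℤ, (∀ p, p ∉ T → f p = 0) →
      ∑ᶠ p, (S.w p : ℤ) * f p = ∑ p ∈ T, (S.w p : ℤ) * f p := by
    intro f hf
    refine finsum_eq_sum_of_support_subset _ fun p hp => ?_
    by_contra hc
    simp only [Function.mem_support, ne_eq, mul_eq_zero, not_or] at hp
    exact hp.2 (hf p hc)
  have e2 : hF S x = ∑ p ∈ T, (S.w p : ℤ) * log (mxF S x p) :=
    key _ fun p hp => by rw [(hmem p hp).1, log_one]
  have e3 : (0 : ℤ) = ∑ p ∈ T, (S.w p : ℤ) * log (S.v p μ) := by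
    rw [← hS.prod μ hμ]
    exact key _ fun p hp => by rw [(hmem p hp).2.1, log_one]
  have e4 : (0 : ℤ) = ∑ p ∈ T, (S.w p : ℤ) * log (S.v p (pl x J0)) := by
    rw [← hS.prod _ hp]
    exact key _ fun p hp => by rw [(hmem p hp).2.2.1, log_one]
  have e5 : tot S B = ∑ p ∈ T, (S.w p : ℤ) * (B p : ℤ) :=
    key _ fun p hp => by rw [(hmem p hp).2.2.2]; rfl
  have hloc : ∀ p, log (S.v p μ) + t * log (mxF S x p) ≤
      A * (B p : ℤ) + b * log (mxF S x p) + t * log (S.v p (pl x J0)) := by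
    intro p
    have h0 := h p
    have n1 : S.v p μ ≠ 0 := (map_ne_zero _).2 hμ
    have n2 : S.v p (pl x J0) ≠ 0 := (map_ne_zero _).2 hp
    have n4 : mxF S x p ≠ 0 := mxF_ne_zero S x hp p
    have n5 : (exp (B p : ℤ) : ℤᵐ⁰) ≠ 0 := exp_ne_zero
    have h1 := (log_le_log (mul_ne_zero n1 (pow_ne_zero _ n4))
      (mul_ne_zero (mul_ne_zero (pow_ne_zero _ n5) (pow_ne_zero _ n4)) (pow_ne_zero _ n2))).2 h0
    rw [log_mul n1 (pow_ne_zero _ n4),
      log_mul (mul_ne_zero (pow_ne_zero _ n5) (pow_ne_zero _ n4)) (pow_ne_zero _ n2),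
      log_mul (pow_ne_zero _ n5) (pow_ne_zero _ n4), log_pow', log_pow', log_pow', log_pow',
      log_exp] at h1
    exact h1
  have hpos : ∀ p, log (S.v p (pl x J0)) ≤ log (mxF S x p) := fun p =>
    (log_le_log ((map_ne_zero _).2 hp) (mxF_ne_zero S x hp p)).2 (le_mxF S x p J0)
  have hsum := Finset.sum_le_sum fun p (_ : p ∈ T) =>
    mul_le_mul_of_nonneg_left (hloc p) (Int.natCast_nonneg (S.w p))
  have hsum2 := Finset.sum_le_sum fun p (_ : p ∈ T) =>
    mul_le_mul_of_nonneg_left (hpos p) (Int.natCast_nonneg (S.w p))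
  rw [← e4, ← e2] at hsum2
  simp only [mul_add, Finset.sum_add_distrib] at hsum
  have c1 : ∀ (k : ℤ) (f : S.V → ℤ), ∑ p ∈ T, (S.w p : ℤ) * (k * f p) =
      k * ∑ p ∈ T, (S.w p : ℤ) * f p := by
    intro k f
    rw [Finset.mul_sum]
    exact Finset.sum_congr rfl fun p _ => by ring
  rw [c1, c1, c1, c1, ← e3, ← e4, ← e2, ← e5] at hsum
  refine ⟨by linarith, hsum2⟩

end heights

/-- the determinant of independent columns -/
theorem det_ne {L : Type} [Field L] {ι κ : Type} [Fintype ι] [DecidableEq ι]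
    (f : ι → κ → L) (e : ι ≃ κ) (h : LinearIndependent L f) :
    Matrix.det (Matrix.of fun k k' => f k' (e k)) ≠ 0 := by
  have h1 : LinearIndependent L fun k' k => f k' (e k) := by
    have := h.map' (LinearEquiv.funCongrLeft L L e).toLinearMap (LinearEquiv.ker _)
    exact this
  have h2 : Matrix.det (Matrix.of fun k' k => f k' (e k)) ≠ 0 := by
    have h3 : LinearIndependent L (Matrix.of fun k' k => f k' (e k)).row := h1
    exact ((Matrix.isUnit_iff_isUnit_det _).1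
      (Matrix.linearIndependent_rows_iff_isUnit.1 h3)).ne_zero
  rw [← Matrix.det_transpose] at h2
  exact h2

/-- module HBFR -/
theorem hbfr (hR : RestStatement) (hBAS : BasrStatement) (hCMP : CmprStatement)
    (hLOC : LocrStatement) : HbfrStatement := by
  intro L _ _ n c r d D x hx hon hnum S hS B hB
  classical
  obtain ⟨J0, hJ0⟩ := (hR L n r x).2.2.2.2.2.1 hx
  obtain ⟨q, C, hcard, hok, hsp, hli⟩ := hBAS L n c r d D x hx hon J0 hJ0
  have hce : Fintype.card (((Fin r × Fin r) ⊕ Fin q) ⊕ Hix r d) =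
      Fintype.card (Fin r × Fin (n + 1)) := by
    rw [Fintype.card_sum, Fintype.card_sum, Fintype.card_prod, Fintype.card_prod,
      Fintype.card_sigma]
    simp only [Fintype.card_fin]
    exact hcard
  have e : ((Fin r × Fin r) ⊕ Fin q) ⊕ Hix r d ≃ Fin r × Fin (n + 1) :=
    Fintype.equivOfCardEq hce
  set μ := Matrix.det (Matrix.of fun k k' => colF D x C J0 k' (e k)) with hμdef
  have hμ : μ ≠ 0 := det_ne _ e hli
  have hwt : ∑ s, (C s).wt ≤ q := by
    have : ∑ s : Fin q, (C s).wt ≤ ∑ _s : Fin q, 1 := by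
      refine Finset.sum_le_sum fun s _ => ?_
      cases C s <;> simp [LC.wt]
    simpa using this
  have hloc : ∀ p, S.v p μ * mxF S x p ^ NN r d ≤
      exp (B p : ℤ) ^ (2 * (r * (n + 1))) * mxF S x p ^ (n + 1 + ∑ s, (C s).wt) *
        S.v p (pl x J0) ^ NN r d := by
    intro p
    obtain ⟨J, hJ⟩ := exists_mxF S x p
    have hJne : pl x J ≠ 0 := fun h0 => mxF_ne_zero S x hJ0 p (by rw [← hJ, h0, map_zero])
    have hP0 : S.v p (pl x J0) ≠ 0 := (map_ne_zero _).2 hJ0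
    have h1 := hCMP L n c r d D x J0 hJ0 q C hsp e J
    have h2 := hLOC L n c r d D x J hJne q C hok e (S.v p) (exp (B p : ℤ))
      (by rw [← exp_zero]; exact WithZero.exp_le_exp.2 (by positivity))
      (fun m I hI f hf => hB.del p m I hI f hf) (fun m I => hB.F p m I)
      (fun J' => by rw [hJ]; exact le_mxF S x p J')
    rw [h1, map_mul, map_pow, map_div₀, hJ] at h2
    have h3 := mul_le_mul' h2 (le_refl (S.v p (pl x J0) ^ NN r d))
    refine le_trans (le_of_eq ?_) h3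
    rw [div_pow, mul_comm (_ / _) _, mul_assoc, div_mul_cancel₀ _ (pow_ne_zero _ hP0)]
  obtain ⟨h1, h2⟩ := glob S x hS hJ0 B hB.fin μ hμ _ _ _ hloc
  have hN : ((n + 1 + ∑ s, (C s).wt : ℕ) : ℤ) + 1 ≤ (NN r d : ℤ) := by
    have : n + 1 + ∑ s, (C s).wt + 1 ≤ NN r d := by omega
    exact_mod_cast this
  nlinarith [mul_le_mul_of_nonneg_right hN h2]

end Pool.Agent.Fano.H32
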